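import Mathlib
import Pool.Agent.H472R3.SF.Bad

set_option autoImplicit false
set_option linter.unusedSectionVars false

/-!
# Čech cohomology of modules killed by the first variable, and of `V[y]`
-/

namespace Pool.Agent.Y180.SF

open Pool.Agent.H158R3 Pool.Agent.H472R3.SF LocalizedModule

variable {K : Type} [Field K] {l : ℕ}

/-- `K[y, x_1, …, x_l] → K[x_1, …, x_l]`, `y ↦ 0` -/
noncomputable def pi0 (K : Type) [Field K] (l : ℕ) :
    MvPolynomial (Fin (l + 1)) K →+* MvPolynomial (Fin l) K :=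
  (Polynomial.constantCoeff).comp (MvPolynomial.finSuccEquiv K l).toRingEquiv.toRingHom

lemma pi0_zero : pi0 K l (MvPolynomial.X 0) = 0 := by
  show (MvPolynomial.finSuccEquiv K l (MvPolynomial.X 0)).coeff 0 = 0
  rw [MvPolynomial.finSuccEquiv_X_zero, Polynomial.coeff_X_zero]

lemma pi0_succ (j : Fin l) : pi0 K l (MvPolynomial.X j.succ) = MvPolynomial.X j := by
  show (MvPolynomial.finSuccEquiv K l (MvPolynomial.X j.succ)).coeff 0 = _
  rw [MvPolynomial.finSuccEquiv_X_succ, Polynomial.coeff_C_zero]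

/-- the inclusion -/
noncomputable def io (K : Type) [Field K] (l : ℕ) :
    MvPolynomial (Fin l) K →+* MvPolynomial (Fin (l + 1)) K :=
  (MvPolynomial.finSuccEquiv K l).symm.toRingEquiv.toRingHom.comp Polynomial.C

lemma pi0_io (r : MvPolynomial (Fin l) K) : pi0 K l (io K l r) = r := by
  show (MvPolynomial.finSuccEquiv K l ((MvPolynomial.finSuccEquiv K l).symm
    (Polynomial.C r))).coeff 0 = r
  rw [AlgEquiv.apply_symm_apply, Polynomial.coeff_C_zero]

lemma io_X (j : Fin l) : io K l (MvPolynomial.X j) = MvPolynomial.X j.succ := by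
  show (MvPolynomial.finSuccEquiv K l).symm (Polynomial.C (MvPolynomial.X j)) = _
  rw [AlgEquiv.symm_apply_eq, MvPolynomial.finSuccEquiv_X_succ]

/-- `V` as a module over `K[y, x_1, …, x_l]`, killed by `y` -/
def V0 (_ : Type) (_ : ℕ) (V : Type) : Type := V

instance (V : Type) [AddCommGroup V] : AddCommGroup (V0 K l V) := inferInstanceAs (AddCommGroup V)

variable {V : Type} [AddCommGroup V] [Module (MvPolynomial (Fin l) K) V]

noncomputable instance instV0 : Module (MvPolynomial (Fin (l + 1)) K) (V0 K l V) :=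
  Module.compHom V (pi0 K l)

/-- identity -/
def toV0 (K : Type) (l : ℕ) {V : Type} (v : V) : V0 K l V := v

/-- identity -/
def ofV0 (K : Type) (l : ℕ) {V : Type} (v : V0 K l V) : V := v

lemma smul_V0 (r : MvPolynomial (Fin (l + 1)) K) (v : V) :
    r • toV0 K l v = toV0 K l (pi0 K l r • v) := rfl

/-- the variables -/
noncomputable abbrev XL (K : Type) [Field K] (m : ℕ) : Fin m → MvPolynomial (Fin m) K :=
  MvPolynomial.X

/-- index -/
abbrev sc {p : ℕ} (τ : Fin p → Fin l) : Fin p → Fin (l + 1) := fun k => (τ k).succ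

lemma pi0_mem {p : ℕ} (τ : Fin p → Fin l) (s : MvPolynomial (Fin (l + 1)) K)
    (hs : s ∈ mon (XL K (l + 1)) (sc τ)) : pi0 K l s ∈ mon (XL K l) τ := by
  have h : mon (XL K (l + 1)) (sc τ) ≤ (mon (XL K l) τ).comap (pi0 K l) := by
    rw [mon, Submonoid.closure_le]
    rintro _ ⟨k, rfl⟩
    show pi0 K l (MvPolynomial.X (τ k).succ) ∈ mon (XL K l) τ
    rw [pi0_succ]
    exact mem_mon (XL K l) τ k
  exact h hs

lemma io_mem {p : ℕ} (τ : Fin p → Fin l) (s : MvPolynomial (Fin l) K)
    (hs : s ∈ mon (XL K l) τ) : io K l s ∈ mon (XL K (l + 1)) (sc τ) := by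
  have h : mon (XL K l) τ ≤ (mon (XL K (l + 1)) (sc τ)).comap (io K l) := by
    rw [mon, Submonoid.closure_le]
    rintro _ ⟨k, rfl⟩
    show io K l (MvPolynomial.X (τ k)) ∈ mon (XL K (l + 1)) (sc τ)
    rw [io_X]
    exact mem_mon (XL K (l + 1)) (sc τ) k
  exact h hs

lemma ind0 {S : Submonoid (MvPolynomial (Fin (l + 1)) K)}
    {P : LocalizedModule S (V0 K l V) → Prop} (y : LocalizedModule S (V0 K l V))
    (h : ∀ (v : V) (s : S), P (mk (toV0 K l v) s)) : P y :=
  LocalizedModule.induction_on (fun v s => h (ofV0 K l v) s) y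

section psi

variable {p : ℕ} (τ : Fin p → Fin l)

/-- target -/
abbrev NT (K : Type) [Field K] {l p : ℕ} (τ : Fin p → Fin l) (V : Type) [AddCommGroup V] [Module (MvPolynomial (Fin l) K) V] : Type :=
  V0 K l (LocalizedModule (mon (XL K l) τ) V)

/-- map before localization -/
noncomputable def g0 (K : Type) [Field K] {l p : ℕ} (τ : Fin p → Fin l) (V : Type)
    [AddCommGroup V] [Module (MvPolynomial (Fin l) K) V] :
    V0 K l V →ₗ[MvPolynomial (Fin (l + 1)) K] NT K τ V where
  toFun := fun v => toV0 K l (mkLinearMap (mon (XL K l) τ) V v)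
  map_add' := fun v w => map_add (mkLinearMap (mon (XL K l) τ) V) (ofV0 K l v) (ofV0 K l w)
  map_smul' := fun r v => map_smul (mkLinearMap (mon (XL K l) τ) V) (pi0 K l r) (ofV0 K l v)

lemma unit_aux (s : mon (XL K (l + 1)) (sc τ)) :
    IsUnit (algebraMap (MvPolynomial (Fin (l + 1)) K)
      (Module.End (MvPolynomial (Fin (l + 1)) K) (NT K τ V)) s) := by
  rw [Module.End.isUnit_iff]
  have h := (Module.End.isUnit_iff _).1 (IsLocalizedModule.map_units
    (mkLinearMap (mon (XL K l) τ) V) ⟨pi0 K l s.1, pi0_mem τ s.1 s.2⟩)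
  exact h

/-- comparison map -/
noncomputable def psi (K : Type) [Field K] {l p : ℕ} (τ : Fin p → Fin l) (V : Type)
    [AddCommGroup V] [Module (MvPolynomial (Fin l) K) V] :
    LocalizedModule (mon (XL K (l + 1)) (sc τ)) (V0 K l V) →ₗ[MvPolynomial (Fin (l + 1)) K]
      NT K τ V :=
  LocalizedModule.lift _ (g0 K τ V) (unit_aux τ)

lemma psi_mk (v : V) (s : mon (XL K (l + 1)) (sc τ)) :
    psi K τ V (mk (toV0 K l v) s) = toV0 K l (mk v ⟨pi0 K l s.1, pi0_mem τ s.1 s.2⟩) := by
  rw [psi, LocalizedModule.lift_mk, Module.End.algebraMap_isUnit_inv_apply_eq_iff]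
  show mk v 1 = pi0 K l s.1 • (mk v ⟨pi0 K l s.1, pi0_mem τ s.1 s.2⟩ :
    LocalizedModule (mon (XL K l) τ) V)
  rw [LocalizedModule.smul'_mk, LocalizedModule.mk_eq]
  refine ⟨1, ?_⟩
  rw [one_smul, one_smul, one_smul]
  rfl

lemma psi_bij : Function.Bijective (psi K τ V) := by
  constructor
  · rw [injective_iff_map_eq_zero]
    intro y
    induction y using ind0 with
    | h v s =>
      intro hy
      have h1 : (mk v ⟨pi0 K l s.1, pi0_mem τ s.1 s.2⟩ :
          LocalizedModule (mon (XL K l) τ) V) = 0 := (psi_mk τ v s).symm.trans hy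
      rw [← LocalizedModule.zero_mk 1, LocalizedModule.mk_eq] at h1
      obtain ⟨t, ht⟩ := h1
      rw [smul_zero, smul_zero, one_smul] at ht
      rw [← LocalizedModule.zero_mk 1, LocalizedModule.mk_eq]
      refine ⟨⟨io K l t.1, io_mem τ t.1 t.2⟩, ?_⟩
      rw [smul_zero, smul_zero, one_smul]
      show toV0 K l (pi0 K l (io K l t.1) • v) = 0
      rw [pi0_io]
      exact ht
  · intro y
    suffices h : ∀ z : LocalizedModule (mon (XL K l) τ) V, ∃ a, psi K τ V a = toV0 K l z from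
      h (ofV0 K l y)
    intro z
    induction z using LocalizedModule.induction_on with
    | h v s =>
      refine ⟨mk (toV0 K l v) ⟨io K l s.1, io_mem τ s.1 s.2⟩, ?_⟩
      rw [psi_mk]
      congr 2
      apply Subtype.ext
      exact pi0_io s.1

end psi

lemma psi_res {p : ℕ} (τ : Fin (p + 1) → Fin l) (k : Fin (p + 1))
    (y : LocalizedModule (mon (XL K (l + 1)) (sc (fun t => τ (k.succAbove t)))) (V0 K l V)) :
    psi K τ V (res (V0 K l V) (mon_le (XL K (l + 1)) (sc τ) k) y) =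
      toV0 K l (res V (mon_le (XL K l) τ k)
        (ofV0 K l (psi K (fun t => τ (k.succAbove t)) V y))) := by
  induction y using ind0 with
  | h v s =>
    have h1 : psi K (fun t => τ (k.succAbove t)) V (mk (toV0 K l v) s) =
      toV0 K l (mk v ⟨pi0 K l s.1, pi0_mem _ s.1 s.2⟩) := psi_mk _ v s
    rw [h1, res_mk, psi_mk]
    show _ = toV0 K l (res V (mon_le (XL K l) τ k) (mk v ⟨pi0 K l s.1, pi0_mem _ s.1 s.2⟩))
    rw [res_mk]

/-- comparison of cochains -/
noncomputable def Psi {p : ℕ} (c : Coch (XL K (l + 1)) (V0 K l V) p) : Coch (XL K l) V p :=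
  fun τ => ofV0 K l (psi K τ V (c (sc τ)))

lemma Psi_dd {p : ℕ} (c : Coch (XL K (l + 1)) (V0 K l V) p) :
    Psi (dd (XL K (l + 1)) (V0 K l V) p c) = dd (XL K l) V p (Psi c) := by
  funext τ
  have h1 : psi K τ V (dd (XL K (l + 1)) (V0 K l V) p c (sc τ)) =
      toV0 K l (dd (XL K l) V p (Psi c) τ) := by
    rw [dd_apply, map_sum]
    have h2 : ∀ k : Fin (p + 1), psi K τ V (((-1 : MvPolynomial (Fin (l + 1)) K) ^ (k : ℕ)) •
        res (V0 K l V) (mon_le (XL K (l + 1)) (sc τ) k)
          (c (fun t => sc τ (k.succAbove t)))) =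
        toV0 K l (((-1 : MvPolynomial (Fin l) K) ^ (k : ℕ)) •
          res V (mon_le (XL K l) τ k) (Psi c (fun t => τ (k.succAbove t)))) := by
      intro k
      rw [map_smul]
      have h := psi_res τ k (c (sc (fun t => τ (k.succAbove t))))
      have e : pi0 K l ((-1) ^ (k : ℕ)) = (-1) ^ (k : ℕ) := by
        rw [map_pow, map_neg, map_one]
      have h3 : psi K τ V (res (V0 K l V) (mon_le (XL K (l + 1)) (sc τ) k)
          (c (fun t => sc τ (k.succAbove t)))) =
        toV0 K l (res V (mon_le (XL K l) τ k) (Psi c (fun t => τ (k.succAbove t)))) := h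
      rw [h3, smul_V0, e]
    rw [Finset.sum_congr rfl fun k _ => h2 k, dd_apply]
    rfl
  exact h1

lemma subsing {p : ℕ} (σ : Fin p → Fin (l + 1)) (k : Fin p) (hk : σ k = 0)
    (y : LocalizedModule (mon (XL K (l + 1)) σ) (V0 K l V)) : y = 0 := by
  induction y using LocalizedModule.induction_on with
  | h v s =>
    rw [← LocalizedModule.zero_mk 1, LocalizedModule.mk_eq]
    refine ⟨⟨MvPolynomial.X 0, ?_⟩, ?_⟩
    · have := mem_mon (XL K (l + 1)) σ k
      rwa [hk] at this
    · rw [smul_zero, smul_zero, one_smul]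
      show toV0 K l (pi0 K l (MvPolynomial.X 0) • (ofV0 K l v)) = 0
      rw [pi0_zero, zero_smul]
      rfl

lemma exists_sc {p : ℕ} (σ : Fin p → Fin (l + 1)) (h : ∀ k, σ k ≠ 0) :
    ∃ τ : Fin p → Fin l, σ = sc τ := by
  choose τ hτ using fun k => Fin.exists_succ_eq.2 (h k)
  exact ⟨τ, funext fun k => (hτ k).symm⟩

lemma Psi_inj {p : ℕ} : Function.Injective
    (Psi : Coch (XL K (l + 1)) (V0 K l V) p → Coch (XL K l) V p) := by
  intro c c' h
  funext σ
  by_cases hσ : ∃ k, σ k = 0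
  · obtain ⟨k, hk⟩ := hσ
    rw [subsing σ k hk (c σ), subsing σ k hk (c' σ)]
  · push Not at hσ
    obtain ⟨τ, rfl⟩ := exists_sc σ hσ
    exact (psi_bij τ).1 (congrFun h τ)

lemma Psi_surj {p : ℕ} : Function.Surjective
    (Psi : Coch (XL K (l + 1)) (V0 K l V) p → Coch (XL K l) V p) := by
  intro c
  have h : ∀ σ : Fin p → Fin (l + 1), ∃ y : LocalizedModule (mon (XL K (l + 1)) σ) (V0 K l V),
      ∀ (τ : Fin p → Fin l) (h : σ = sc τ), psi K τ V (h ▸ y) = toV0 K l (c τ) := by
    intro σ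
    by_cases hσ : ∃ τ, σ = sc τ
    · obtain ⟨τ, rfl⟩ := hσ
      obtain ⟨y, hy⟩ := (psi_bij τ).2 (toV0 K l (c τ))
      refine ⟨y, fun τ' h => ?_⟩
      have h1 : τ = τ' := funext fun k => Fin.succ_injective _ (congrFun h k)
      subst h1
      exact hy
    · exact ⟨0, fun τ h => absurd ⟨τ, h⟩ hσ⟩
  choose y hy using h
  exact ⟨y, funext fun τ => hy (sc τ) τ rfl⟩

lemma Psi_zero {p : ℕ} : Psi (0 : Coch (XL K (l + 1)) (V0 K l V) p) = 0 :=
  funext fun τ => map_zero (psi K τ V)

/-- a module killed by `y`: the variable `y` does not matter -/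
theorem van_V0 {p : ℕ} : Van (XL K (l + 1)) (V0 K l V) p ↔ Van (XL K l) V p := by
  constructor
  · intro h
    match p with
    | 0 =>
      intro c hc
      obtain ⟨c', rfl⟩ := Psi_surj c
      rw [← Psi_dd, ← Psi_zero] at hc
      rw [h c' (Psi_inj hc), Psi_zero]
    | p + 1 =>
      intro c hc
      obtain ⟨c', rfl⟩ := Psi_surj c
      rw [← Psi_dd, ← Psi_zero] at hc
      obtain ⟨b, hb⟩ := h c' (Psi_inj hc)
      exact ⟨Psi b, by rw [← Psi_dd, hb]⟩
  · intro h
    match p with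
    | 0 =>
      intro c hc
      apply Psi_inj
      rw [Psi_zero]
      exact h _ (by rw [← Psi_dd, hc, Psi_zero])
    | p + 1 =>
      intro c hc
      obtain ⟨b, hb⟩ := h (Psi c) (by rw [← Psi_dd, hc, Psi_zero])
      obtain ⟨b', rfl⟩ := Psi_surj b
      exact ⟨b', Psi_inj (by rw [Psi_dd, hb])⟩

end Pool.Agent.Y180.SF
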