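import Mathlib
import Pool.Agent.Y180.SF.Shift
import Pool.Agent.H472R3.SF.Main

set_option autoImplicit false
set_option linter.unusedSectionVars false

/-!
# Cohomology of the logarithmic vector fields of a product with a point
-/

namespace Pool.Agent.Y180.SF

open Pool.Agent.H158R3 Pool.Agent.H472R3.SF LocalizedModule

variable {K : Type} [Field K] {l : ℕ} {V : Type} [AddCommGroup V]
  [Module (MvPolynomial (Fin l) K) V]

lemma X_smul_coeff_succ {R : Type} [CommRing R] {Q : Type} [AddCommGroup Q] [Module R Q]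
    (y : PolynomialModule R Q) (n : ℕ) :
    ((Polynomial.X : Polynomial R) • y).coeff (n + 1) = y.coeff n := by
  rw [← Polynomial.monomial_one_one_eq_X, PolynomialModule.monomial_smul_apply]
  simp

lemma X_smul_coeff_zero {R : Type} [CommRing R] {Q : Type} [AddCommGroup Q] [Module R Q]
    (y : PolynomialModule R Q) : ((Polynomial.X : Polynomial R) • y).coeff 0 = 0 := by
  rw [← Polynomial.monomial_one_one_eq_X, PolynomialModule.monomial_smul_apply]
  simp

lemma exists_div {R : Type} [CommRing R] {Q : Type} [AddCommGroup Q] [Module R Q]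
    (y : PolynomialModule R Q) : ∃ z : PolynomialModule R Q,
      y = PolynomialModule.single R 0 (y.coeff 0) + (Polynomial.X : Polynomial R) • z := by
  induction y using PolynomialModule.induction_linear with
  | zero => exact ⟨0, by simp⟩
  | add y y' h h' =>
    obtain ⟨z, hz⟩ := h
    obtain ⟨z', hz'⟩ := h'
    refine ⟨z + z', ?_⟩
    rw [PolynomialModule.coeff_add, Finsupp.add_apply, PolynomialModule.single_add, smul_add]
    nth_rewrite 1 [hz, hz']
    abel
  | single n m =>
    match n with
    | 0 => exact ⟨0, by simp⟩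
    | n + 1 =>
      refine ⟨PolynomialModule.single R n m, ?_⟩
      rw [← Polynomial.monomial_one_one_eq_X, PolynomialModule.monomial_smul_single]
      simp [add_comm]

/-- identity -/
def ofPQ (K : Type) [Field K] (l : ℕ) {V : Type} [AddCommGroup V]
    [Module (MvPolynomial (Fin l) K) V] (y : PQ K l V) :
    PolynomialModule (MvPolynomial (Fin l) K) V := y

/-- evaluation at `y = 0` -/
noncomputable def ev0 (K : Type) [Field K] (l : ℕ) (V : Type) [AddCommGroup V]
    [Module (MvPolynomial (Fin l) K) V] :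
    PQ K l V →ₗ[MvPolynomial (Fin (l + 1)) K] V0 K l V where
  toFun := fun y => toV0 K l ((ofPQ K l y).coeff 0)
  map_add' := fun y z => rfl
  map_smul' := fun r y => by
    show toV0 K l (((MvPolynomial.finSuccEquiv K l r) • (ofPQ K l y)).coeff 0) = _
    rw [PolynomialModule.smul_apply]
    simp
    rfl

/-- multiplication by `y` -/
noncomputable def mY (K : Type) [Field K] (l : ℕ) (V : Type) [AddCommGroup V]
    [Module (MvPolynomial (Fin l) K) V] :
    PQ K l V →ₗ[MvPolynomial (Fin (l + 1)) K] PQ K l V :=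
  LinearMap.lsmul _ _ (MvPolynomial.X 0)

lemma X0_smul (y : PolynomialModule (MvPolynomial (Fin l) K) V) :
    (MvPolynomial.X 0 : MvPolynomial (Fin (l + 1)) K) •
      toPull (MvPolynomial.finSuccEquiv K l).toRingEquiv y =
      toPull (MvPolynomial.finSuccEquiv K l).toRingEquiv
        ((Polynomial.X : Polynomial (MvPolynomial (Fin l) K)) • y) := by
  show (MvPolynomial.finSuccEquiv K l (MvPolynomial.X 0)) • y = _
  rw [MvPolynomial.finSuccEquiv_X_zero]
  rfl

lemma reg_X0 : IsSMulRegular (PQ K l V) (MvPolynomial.X 0 : MvPolynomial (Fin (l + 1)) K) := by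
  intro y z h
  have h' : ((Polynomial.X : Polynomial (MvPolynomial (Fin l) K)) • (ofPQ K l y)) =
      (Polynomial.X : Polynomial (MvPolynomial (Fin l) K)) • (ofPQ K l z) :=
    (X0_smul (K := K) (l := l) (V := V) (ofPQ K l y)).symm.trans
      (h.trans (X0_smul (K := K) (l := l) (V := V) (ofPQ K l z)))
  show ofPQ K l y = ofPQ K l z
  ext n
  have h2 := congrArg (fun t => PolynomialModule.coeff t (n + 1)) h'
  simp only [X_smul_coeff_succ] at h2
  exact h2

lemma ev0_surj : Function.Surjective (ev0 K l V) := by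
  intro v
  refine ⟨(PolynomialModule.single (MvPolynomial (Fin l) K) 0 (ofV0 K l v) :
    PolynomialModule (MvPolynomial (Fin l) K) V), ?_⟩
  show toV0 K l ((PolynomialModule.single (MvPolynomial (Fin l) K) 0 (ofV0 K l v)).coeff 0) = v
  rw [PolynomialModule.coeff_single, Finsupp.single_eq_same]
  rfl

lemma mY_inj : Function.Injective (mY K l V) := fun _ _ h => reg_X0 h

lemma mY_ev0 : Function.Exact (mY K l V) (ev0 K l V) := by
  intro y
  constructor
  · intro h
    have h1 : (ofPQ K l y).coeff 0 = 0 := h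
    obtain ⟨z, hz⟩ := exists_div (ofPQ K l y)
    rw [h1, PolynomialModule.single_zero, zero_add] at hz
    exact ⟨toPull (MvPolynomial.finSuccEquiv K l).toRingEquiv z,
      (X0_smul (K := K) (l := l) (V := V) z).trans hz.symm⟩
  · rintro ⟨z, rfl⟩
    have h1 : mY K l V z = toPull (MvPolynomial.finSuccEquiv K l).toRingEquiv
        ((Polynomial.X : Polynomial (MvPolynomial (Fin l) K)) • (ofPQ K l z)) :=
      X0_smul (K := K) (l := l) (V := V) (ofPQ K l z)
    rw [h1]
    exact X_smul_coeff_zero (ofPQ K l z)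

/-- `V[y] / y V[y] = V` -/
noncomputable def quo : V0 K l V ≃ₗ[MvPolynomial (Fin (l + 1)) K]
    QuotSMulTop (MvPolynomial.X 0 : MvPolynomial (Fin (l + 1)) K) (PQ K l V) :=
  ((Submodule.quotEquivOfEq _ _ (by
    rw [LinearMap.exact_iff.1 (mY_ev0 (K := K) (l := l) (V := V))]
    ext y
    constructor
    · rintro ⟨b, -, rfl⟩; exact ⟨b, rfl⟩
    · rintro ⟨b, rfl⟩; exact ⟨b, trivial, rfl⟩)).trans
    ((ev0 K l V).quotKerEquivOfSurjective ev0_surj)).symm

theorem van_PQ (d : ℕ) (h : ∀ p < d, Van (XL K l) V p) :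
    ∀ p < d + 1, Van (XL K (l + 1)) (PQ K l V) p := by
  intro p hp
  match p with
  | 0 => exact van_zero_of_regular (XL K (l + 1)) 0 reg_X0
  | p + 1 =>
    refine van_succ_of_regular (XL K (l + 1)) 0 reg_X0 ?_
    exact van_of_equiv (XL K (l + 1)) quo (van_V0.2 (h p (by omega)))

theorem van_of_PQ (d : ℕ) (h : Van (XL K (l + 1)) (PQ K l V) d)
    (h' : Van (XL K (l + 1)) (PQ K l V) (d + 1)) : Van (XL K l) V d :=
  van_V0.1 (van_right (XL K (l + 1)) (mY K l V) (ev0 K l V) mY_inj ev0_surj mY_ev0 h h')

section arr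

variable {n : ℕ} (A : Fin n → Fin l → K)

/-- multiples of the Euler vector field -/
noncomputable def eu : MvPolynomial (Fin l) K →ₗ[MvPolynomial (Fin l) K] Dv A :=
  LinearMap.toSpanSingleton _ _ ⟨evec K l, evec_mem A⟩

lemma eu_inj (hl : 0 < l) : Function.Injective (eu A) := by
  rw [injective_iff_map_eq_zero]
  intro r hr
  have h1 : (r • (⟨evec K l, evec_mem A⟩ : Dv A)) = 0 := hr
  have h2 := congrFun (congrArg Subtype.val h1) ⟨0, hl⟩
  have h3 : r * MvPolynomial.X ⟨0, hl⟩ = 0 := h2
  exact (mul_eq_zero.1 h3).resolve_right (MvPolynomial.X_ne_zero _)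

lemma eu_exact : Function.Exact (eu A) (Submodule.mkQ
    (Submodule.span (SS K l) {(⟨evec K l, evec_mem A⟩ : Dv A)})) := by
  rw [LinearMap.exact_iff, Submodule.ker_mkQ, eu, LinearMap.range_toSpanSingleton]

variable [CharZero K]

/-- vanishing for `D₀(A)` gives vanishing one degree higher for the product with a point -/
theorem up (hn : 0 < n) (hA : IsArrangement A) (d : ℕ) (hd : d ≤ l)
    (h : ∀ p < d, Van (XL K l) (D0 A) p) :
    ∀ p < d + 1, Van (XL K (l + 1)) (D0 (pt A)) p := by
  rcases Nat.eq_zero_or_pos l with hl | hl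
  · obtain rfl : d = 0 := by omega
    intro p hp
    have h0 : ∀ p < 0 + 1, Van (XL K (l + 1)) (PQ K l (Dv A)) p :=
      van_PQ 0 (fun p hp => absurd hp (by omega))
    exact van_of_equiv (XL K (l + 1)) (equivPt A (isArrangement_pt hA).1).symm (h0 p hp)
  have h1 : ∀ p < d, Van (XL K l) (Dv A) p := by
    intro p hp
    refine van_mid (XL K l) (eu A) (Submodule.mkQ
      (Submodule.span (SS K l) {(⟨evec K l, evec_mem A⟩ : Dv A)})) (eu_inj A hl)
      (Submodule.mkQ_surjective _) (eu_exact A) (van_projective _ p (by omega)) ?_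
    exact van_of_equiv (XL K l) (equiv1 A hn hA.1) (h p hp)
  intro p hp
  exact van_of_equiv (XL K (l + 1)) (equivPt A (isArrangement_pt hA).1).symm
    (van_PQ d h1 p hp)

/-- vanishing for the product with a point gives vanishing one degree lower for `D₀(A)` -/
theorem down (hn : 0 < n) (hA : IsArrangement A) (d : ℕ) (hd : d + 1 < l)
    (h : Van (XL K (l + 1)) (D0 (pt A)) d) (h' : Van (XL K (l + 1)) (D0 (pt A)) (d + 1)) :
    Van (XL K l) (D0 A) d := by
  have e := equivPt A (isArrangement_pt hA).1
  have h1 : Van (XL K l) (Dv A) d := van_of_PQ d (van_of_equiv (XL K (l + 1)) e h)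
    (van_of_equiv (XL K (l + 1)) e h')
  have h2 : Van (XL K l) (QE A) d := by
    refine van_right (XL K l) (eu A) (Submodule.mkQ
      (Submodule.span (SS K l) {(⟨evec K l, evec_mem A⟩ : Dv A)})) (eu_inj A (by omega))
      (Submodule.mkQ_surjective _) (eu_exact A) h1 (van_projective _ (d + 1) (by omega))
  exact van_of_equiv (XL K l) (equiv1 A hn hA.1).symm h2

end arr

end Pool.Agent.Y180.SF
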