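import Mathlib
import Pool.Agent.Y180.SF.Step

set_option autoImplicit false
set_option linter.unusedSectionVars false

/-!
# Pairs of arrangements in all dimensions
-/

namespace Pool.Agent.Y180.SF

open Pool.Agent.H158R3 Pool.Agent.H472R3.SF LocalizedModule

variable {K : Type} [Field K]

/-- iterated products with points -/
def it (b : Fin 10 → Fin 4 → K) : (j : ℕ) → Fin (j + 10) → Fin (j + 4) → K
  | 0 => fun i => b (Fin.cast (by omega) i) ∘ Fin.cast (by omega)
  | j + 1 => fun i k => pt (it b j) (Fin.cast (by omega) i) (Fin.cast (by omega) k)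

lemma it_zero (b : Fin 10 → Fin 4 → K) : it b 0 = b := rfl

lemma it_succ (b : Fin 10 → Fin 4 → K) (j : ℕ) : it b (j + 1) = pt (it b j) := rfl

lemma it_arr (b : Fin 10 → Fin 4 → K) (hb : IsArrangement b) (j : ℕ) :
    IsArrangement (it b j) := by
  induction j with
  | zero => exact hb
  | succ j ih => exact isArrangement_pt ih

lemma it_indep {a b : Fin 10 → Fin 4 → K}
    (h : ∀ t : Set (Fin 10), LinearIndepOn K a t ↔ LinearIndepOn K b t) (j : ℕ) :
    ∀ t : Set (Fin (j + 10)), LinearIndepOn K (it a j) t ↔ LinearIndepOn K (it b j) t := by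
  induction j with
  | zero => exact h
  | succ j ih =>
    intro t
    exact (indep_pt (it a j) t).trans ((ih _).trans (indep_pt (it b j) t).symm)

lemma it_lattice {a b : Fin 10 → Fin 4 → K}
    (h : ∀ t : Set (Fin 10), LinearIndepOn K a t ↔ LinearIndepOn K b t) (j : ℕ) :
    Nonempty (Lattice (pt (it a j)) ≃o Lattice (pt (it b j))) :=
  lattice_pt (it_indep h j)

variable [CharZero K]

theorem it_up (b : Fin 10 → Fin 4 → K) (hb : IsArrangement b) (d : ℕ) (hd : d ≤ 5)
    (h : ∀ p < d, Van (XL K 5) (D0 (pt b)) p) (j : ℕ) :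
    ∀ p < j + d, Van (XL K (j + 5)) (D0 (pt (it b j))) p := by
  induction j with
  | zero =>
    intro p hp
    exact h p (by omega)
  | succ j ih =>
    intro p hp
    exact up (pt (it b j)) (Nat.succ_pos _) (isArrangement_pt (it_arr b hb j)) (j + d)
      (by omega) ih p (by omega)

theorem it_down (b : Fin 10 → Fin 4 → K) (hb : IsArrangement b)
    (h : ∀ p < 3, Van (XL K 5) (D0 (pt b)) p) (h3 : ¬ Van (XL K 5) (D0 (pt b)) 3) (j : ℕ) :
    ¬ Van (XL K (j + 5)) (D0 (pt (it b j))) (j + 3) := by
  induction j with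
  | zero => exact h3
  | succ j ih =>
    intro hv
    refine ih (down (pt (it b j)) (Nat.succ_pos _) (isArrangement_pt (it_arr b hb j)) (j + 3)
      (by omega) ?_ hv)
    exact it_up b hb 3 (by omega) h (j + 1) (j + 3) (by omega)

/-- the first arrangement -/
theorem good_base (b : Fin 10 → Fin 4 → K) (hb : IsArrangement b)
    (h : PdLT (S4 K) (Dv b) 2) : ∀ p < 4, Van (XL K 5) (D0 (pt b)) p := by
  intro p hp
  refine van_of_equiv (XL K 5) (equivPt b (isArrangement_pt hb).1).symm ?_
  exact van_of_pdLT 1 _ (pdLT_pull (e5 K) (pdLT_polynomialModule _ h)) p (by omega)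

omit [CharZero K] in
/-- identity -/
def ofRz (m : Rz K) : R3 K := m

omit [CharZero K] in
lemma bad_low {n : ℕ} (a : Fin n → Fin 3 → K) (ha : ∀ i, a i ≠ 0) :
    ∀ p < 2, Van (XL K 4) (Dv (gad a)) p := by
  intro p hp
  match p with
  | 0 =>
    refine van_zero_of_regular (XL K 4) 0 fun y z h => ?_
    apply Subtype.ext
    funext j
    have h1 := congrFun (congrArg Subtype.val h) j
    exact mul_left_cancel₀ (MvPolynomial.X_ne_zero (R := K) (0 : Fin 4)) h1
  | 1 =>
    refine van_left (XL K 4) (f4 a) (g4 a) (f4_inj a) (g4_surj a) (fg4_exact a) ?_ ?_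
    · refine van_zero_of_regular (XL K 4) 1 fun y z h => ?_
      have e1 : ee K (MvPolynomial.X (0 : Fin 3).succ) = Polynomial.C (MvPolynomial.X 0) :=
        MvPolynomial.finSuccEquiv_X_succ (j := (0 : Fin 3))
      have h0 : ∀ y : LinearMap.range (rho a), (((XL K 4 1) • toPull (e4 K) y :
          Pull (e4 K) (LinearMap.range (rho a))) : LinearMap.range (rho a)).1 =
          toRz ((MvPolynomial.X 0 : R3 K) * ofRz y.1) := by
        intro y
        show toRz (((ee K (MvPolynomial.X (0 : Fin 3).succ)).eval (zz K)) * ofRz y.1) = _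
        rw [e1, Polynomial.eval_C]
      have h1 := congrArg (fun t : Pull (e4 K) (LinearMap.range (rho a)) =>
        (t : LinearMap.range (rho a)).1) h
      have h2 : (MvPolynomial.X 0 : R3 K) * ofRz ((y : LinearMap.range (rho a)).1) =
          (MvPolynomial.X 0 : R3 K) * ofRz ((z : LinearMap.range (rho a)).1) :=
        (h0 y).symm.trans (h1.trans (h0 z))
      have h3 : ofRz ((y : LinearMap.range (rho a)).1) = ofRz ((z : LinearMap.range (rho a)).1) :=
        mul_left_cancel₀ (MvPolynomial.X_ne_zero (R := K) (0 : Fin 3)) h2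
      exact Subtype.ext h3
    · exact van_of_pdLT 1 _ (pdLT_pull (e4 K) (pd_TT a ha)) 1 (by norm_num)

/-- the second arrangement -/
theorem bad_base (hb : IsArrangement (gad (ab K))) :
    (∀ p < 3, Van (XL K 5) (D0 (pt (gad (ab K)))) p) ∧
      ¬ Van (XL K 5) (D0 (pt (gad (ab K)))) 3 := by
  constructor
  · intro p hp
    exact van_of_equiv (XL K 5) (equivPt _ (isArrangement_pt hb).1).symm
      (van_PQ 2 (bad_low (ab K) ab_ne) p hp)
  · intro h
    exact bad (ab K) ab_ne (bb K) bad_h0 ⟨⟨thX K, thX_mem K⟩, thX_two K⟩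
      ⟨⟨thY K, thY_mem K⟩, thY_two K⟩
      (van_of_equiv (XL K 5) (equivPt _ (isArrangement_pt hb).1) h)

end Pool.Agent.Y180.SF
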